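import Pool.Agent.H308R3.DM.Stmts

set_option autoImplicit false

/-! # Project DIAMOND: TaskIso -/

namespace Pool.Agent.H941R3.DM

open Finset
open scoped Classical
open Pool.Agent.H308R3.DM

/-- shift in the first coordinate, both directions -/
noncomputable def shU (H : Finset Pt) : Finset Pt :=
  H.image (fun x : Pt => (x.1 + 1, x.2)) ∪ H.image (fun x : Pt => (x.1 - 1, x.2))

/-- shift in the second coordinate, both directions -/
noncomputable def shV (H : Finset Pt) : Finset Pt :=
  H.image (fun x : Pt => (x.1, x.2 + 1)) ∪ H.image (fun x : Pt => (x.1, x.2 - 1))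

theorem card_shU (H : Finset Pt) : H.card + (pV H).card ≤ (shU H).card := by
  have hA : (H.image (fun x : Pt => (x.1 + 1, x.2))).card = H.card := by
    apply card_image_of_injective
    intro x y hxy
    simp only [Prod.mk.injEq] at hxy
    exact Prod.ext (by linarith [hxy.1]) hxy.2
  have h1 : (pV H).card ≤
      (H.image (fun x : Pt => (x.1 - 1, x.2)) \ H.image (fun x : Pt => (x.1 + 1, x.2))).card := by
    have h2 : pV H ⊆ (H.image (fun x : Pt => (x.1 - 1, x.2)) \
        H.image (fun x : Pt => (x.1 + 1, x.2))).image Prod.snd := by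
      intro v hv
      obtain ⟨z, hz, hzv⟩ := mem_image.1 hv
      obtain ⟨x, hx, hmin⟩ := exists_min_image (H.filter fun x => x.2 = v) Prod.fst
        ⟨z, mem_filter.2 ⟨hz, hzv⟩⟩
      rw [mem_filter] at hx
      refine mem_image.2 ⟨(x.1 - 1, x.2), mem_sdiff.2 ⟨mem_image.2 ⟨x, hx.1, rfl⟩, ?_⟩, hx.2⟩
      intro hmem
      obtain ⟨y, hy, hyx⟩ := mem_image.1 hmem
      simp only [Prod.mk.injEq] at hyx
      have := hmin y (mem_filter.2 ⟨hy, hyx.2.trans hx.2⟩)
      linarith [hyx.1]
    exact (card_le_card h2).trans card_image_le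
  rw [shU, ← union_sdiff_self_eq_union, card_union_of_disjoint disjoint_sdiff, hA]
  exact Nat.add_le_add_left h1 _

theorem card_shV (H : Finset Pt) : H.card + (pU H).card ≤ (shV H).card := by
  have hA : (H.image (fun x : Pt => (x.1, x.2 + 1))).card = H.card := by
    apply card_image_of_injective
    intro x y hxy
    simp only [Prod.mk.injEq] at hxy
    exact Prod.ext hxy.1 (by linarith [hxy.2])
  have h1 : (pU H).card ≤
      (H.image (fun x : Pt => (x.1, x.2 - 1)) \ H.image (fun x : Pt => (x.1, x.2 + 1))).card := by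
    have h2 : pU H ⊆ (H.image (fun x : Pt => (x.1, x.2 - 1)) \
        H.image (fun x : Pt => (x.1, x.2 + 1))).image Prod.fst := by
      intro v hv
      obtain ⟨z, hz, hzv⟩ := mem_image.1 hv
      obtain ⟨x, hx, hmin⟩ := exists_min_image (H.filter fun x => x.1 = v) Prod.snd
        ⟨z, mem_filter.2 ⟨hz, hzv⟩⟩
      rw [mem_filter] at hx
      refine mem_image.2 ⟨(x.1, x.2 - 1), mem_sdiff.2 ⟨mem_image.2 ⟨x, hx.1, rfl⟩, ?_⟩, hx.2⟩
      intro hmem
      obtain ⟨y, hy, hyx⟩ := mem_image.1 hmem
      simp only [Prod.mk.injEq] at hyx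
      have := hmin y (mem_filter.2 ⟨hy, hyx.1.trans hx.2⟩)
      linarith [hyx.2]
    exact (card_le_card h2).trans card_image_le
  rw [shV, ← union_sdiff_self_eq_union, card_union_of_disjoint disjoint_sdiff, hA]
  exact Nat.add_le_add_left h1 _

theorem pU_shV (H : Finset Pt) : pU (shV H) = pU H := by
  ext v
  simp only [pU, shV, mem_image, mem_union]
  constructor
  · rintro ⟨x, (⟨y, hy, rfl⟩ | ⟨y, hy, rfl⟩), rfl⟩ <;> exact ⟨y, hy, rfl⟩
  · rintro ⟨y, hy, rfl⟩
    exact ⟨(y.1, y.2 + 1), Or.inl ⟨y, hy, rfl⟩, rfl⟩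

theorem nb_sub (G : Finset Pt) : shV (shU (inn G)) ⊆ G := by
  intro x hx
  simp only [shV, shU, mem_union, mem_image] at hx
  have key : ∀ y ∈ inn G, ∀ s : Stp, y + dv s ∈ G := fun y hy => (mem_filter.1 hy).2
  rcases hx with ⟨z, (⟨y, hy, rfl⟩ | ⟨y, hy, rfl⟩), rfl⟩ | ⟨z, (⟨y, hy, rfl⟩ | ⟨y, hy, rfl⟩), rfl⟩
  · have := key y hy (true, true)
    simpa [dv, sg, Prod.ext_iff, Prod.add_def] using this
  · have := key y hy (false, true)
    simpa [dv, sg, Prod.ext_iff, Prod.add_def, sub_eq_add_neg] using this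
  · have := key y hy (true, false)
    simpa [dv, sg, Prod.ext_iff, Prod.add_def, sub_eq_add_neg] using this
  · have := key y hy (false, false)
    simpa [dv, sg, Prod.ext_iff, Prod.add_def, sub_eq_add_neg] using this

theorem card_bd (G : Finset Pt) : (inn G).card + (bd G).card = G.card := by
  have h := card_filter_add_card_filter_not (s := G) (fun x => ∀ s : Stp, x + dv s ∈ G)
  rw [inn, bd, ← h]
  congr 2
  ext x
  rw [mem_filter, mem_filter, not_forall]

theorem taskIso : TaskIso := by
  intro G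
  set I := inn G with hI
  set N := shV (shU I) with hN
  have hNG : N ⊆ G := nb_sub G
  have h1 : I.card + (pV I).card ≤ (shU I).card := card_shU I
  have h2 : (shU I).card + (pU (shU I)).card ≤ N.card := card_shV (shU I)
  have h3 : pU N = pU (shU I) := pU_shV _
  have h4 : (G \ N).card + N.card = G.card := card_sdiff_add_card_eq_card hNG
  have h5 : pU G ⊆ pU N ∪ pU (G \ N) := by
    intro v hv
    obtain ⟨x, hx, rfl⟩ := mem_image.1 hv
    by_cases hxN : x ∈ N
    · exact mem_union_left _ (mem_image_of_mem _ hxN)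
    · exact mem_union_right _ (mem_image_of_mem _ (mem_sdiff.2 ⟨hx, hxN⟩))
  have h6 : (pU G).card ≤ (pU N).card + (pU (G \ N)).card :=
    (card_le_card h5).trans (card_union_le _ _)
  have h7 : (pU (G \ N)).card ≤ (G \ N).card := card_image_le
  have h8 : I.card + (bd G).card = G.card := card_bd G
  rw [h3] at h6
  omega

end Pool.Agent.H941R3.DM
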